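import Pool.Agent.Q232.LT.Approx

/-!
# Lieb-Thirring: complex systems with small overlap with their conjugates
-/

set_option autoImplicit false

open MeasureTheory Set Filter Topology Real
open scoped Matrix

namespace Pool.Agent.Q232.LT

open LTd

theorem gram_val {d N : ℕ} (u : Fin N → (Fin d → ℝ) → ℂ) (hu : ∀ i, MemLp (u i) 2 volume)
    (ho : ∀ i j, ∫ x, (starRingEnd ℂ) (u i x) * u j x = if i = j then 1 else 0)
    (c : Fin N → ℂ) :
    Integrable (fun x => ‖∑ i, c i * u i x‖ ^ 2) ∧ ∫ x, ‖∑ i, c i * u i x‖ ^ 2 = ∑ i, ‖c i‖ ^ 2 := by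
  have hint : ∀ i j, Integrable (fun x => (starRingEnd ℂ) (u i x) * u j x) volume := by
    intro i j
    have h1 : MemLp (fun x => (starRingEnd ℂ) (u i x)) 2 volume := (hu i).star
    exact h1.integrable_mul (hu j)
  let U : (Fin d → ℝ) → ℂ := fun x => ∑ i, c i * u i x
  have hU : ∀ x, ((‖U x‖ ^ 2 : ℝ) : ℂ) =
      ∑ i, ∑ j, ((starRingEnd ℂ) (c i) * c j) * ((starRingEnd ℂ) (u i x) * u j x) := by
    intro x
    have h1 : ((‖U x‖ ^ 2 : ℝ) : ℂ) = (starRingEnd ℂ) (U x) * U x := by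
      rw [Complex.conj_mul']
      push_cast
      rfl
    rw [h1]
    simp only [U, map_sum, map_mul, Finset.sum_mul_sum]
    exact Finset.sum_congr rfl fun i _ => Finset.sum_congr rfl fun j _ => by ring
  have hIntC : Integrable (fun x => ((‖U x‖ ^ 2 : ℝ) : ℂ)) volume := by
    simp only [hU]
    exact integrable_finsetSum _ fun i _ => integrable_finsetSum _ fun j _ => (hint i j).const_mul _
  have hInt : Integrable (fun x => ‖U x‖ ^ 2) volume := by
    have h := hIntC.re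
    refine h.congr (Filter.Eventually.of_forall fun x => ?_)
    exact Complex.ofReal_re _
  refine ⟨hInt, ?_⟩
  change ∫ x, ‖U x‖ ^ 2 = _
  apply Complex.ofReal_injective
  rw [← integral_complex_ofReal]
  simp only [hU]
  rw [integral_finsetSum _ fun i _ => integrable_finsetSum _ fun j _ => (hint i j).const_mul _]
  push_cast
  refine Finset.sum_congr rfl fun i _ => ?_
  rw [integral_finsetSum _ fun j _ => (hint i j).const_mul _]
  simp only [integral_const_mul, ho]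
  rw [Finset.sum_eq_single i]
  · rw [if_pos rfl, mul_one, Complex.conj_mul']
  · intro j _ hj
    rw [if_neg (Ne.symm hj), mul_zero]
  · intro h
    exact absurd (Finset.mem_univ i) h

theorem gram_beta {d N : ℕ} (u : Fin N → (Fin d → ℝ) → ℂ) (hu : ∀ i, MemLp (u i) 2 volume)
    (ho : ∀ i j, ∫ x, (starRingEnd ℂ) (u i x) * u j x = if i = j then 1 else 0) {β : ℝ}
    (hβ : ∀ c : Fin N → ℂ, (∫ x, (∑ n, c n * u n x) ^ 2).re ≤ β * ∑ n, ‖c n‖ ^ 2)
    (a b : Fin N → ℝ) :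
    ∫ x, (∑ i, (a i * (u i x).re + b i * (u i x).im)) ^ 2 ≤
      (1 + β) / 2 * ∑ i, (a i ^ 2 + b i ^ 2) := by
  let c : Fin N → ℂ := fun i => (a i : ℂ) - (b i : ℂ) * Complex.I
  let U : (Fin d → ℝ) → ℂ := fun x => ∑ i, c i * u i x
  obtain ⟨h1, h2⟩ := gram_val u hu ho c
  have hcn : ∀ i, ‖c i‖ ^ 2 = a i ^ 2 + b i ^ 2 := by
    intro i
    rw [Complex.sq_norm, Complex.normSq_apply]
    simp only [c, Complex.sub_re, Complex.sub_im, Complex.mul_re, Complex.mul_im,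
      Complex.ofReal_re, Complex.ofReal_im, Complex.I_re, Complex.I_im]
    ring
  have h3 : MemLp U 2 volume := memLp_finsetSum _ fun i _ => (hu i).const_mul (c i)
  have h4 : Integrable (fun x => U x ^ 2) := by
    have := h3.integrable_mul h3
    refine this.congr (Eventually.of_forall fun x => ?_)
    simp [sq]
  have hre : ∀ x, (∑ i, (a i * (u i x).re + b i * (u i x).im)) = (U x).re := by
    intro x
    simp only [U, c, Complex.re_sum]
    refine Finset.sum_congr rfl fun i _ => ?_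
    simp [Complex.mul_re, Complex.sub_re, Complex.sub_im]
  have e1 : ∀ x, (∑ i, (a i * (u i x).re + b i * (u i x).im)) ^ 2 =
      (‖U x‖ ^ 2 + (U x ^ 2).re) / 2 := by
    intro x
    rw [hre, Complex.sq_norm, Complex.normSq_apply, sq (U x), Complex.mul_re]
    ring
  have h5 : ∫ x, (U x ^ 2).re = (∫ x, U x ^ 2).re := by
    have := integral_re h4
    exact this
  have h6 : Integrable (fun x => ‖U x‖ ^ 2) := h1
  have h7 : Integrable (fun x => (U x ^ 2).re) := h4.re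
  have h8 : ∫ x, ‖U x‖ ^ 2 = ∑ i, ‖c i‖ ^ 2 := h2
  have h9 : (∫ x, U x ^ 2).re ≤ β * ∑ i, ‖c i‖ ^ 2 := hβ c
  simp only [e1]
  rw [integral_div, integral_add h6 h7, h5, h8]
  simp only [hcn] at h9 ⊢
  linarith

theorem beta_one {d N : ℕ} (u : Fin N → (Fin d → ℝ) → ℂ) (hu : ∀ i, MemLp (u i) 2 volume)
    (ho : ∀ i j, ∫ x, (starRingEnd ℂ) (u i x) * u j x = if i = j then 1 else 0)
    (c : Fin N → ℂ) : (∫ x, (∑ n, c n * u n x) ^ 2).re ≤ 1 * ∑ n, ‖c n‖ ^ 2 := by
  obtain ⟨h1, h2⟩ := gram_val u hu ho c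
  rw [one_mul, ← h2]
  refine (Complex.re_le_norm _).trans ((norm_integral_le_integral_norm _).trans (le_of_eq ?_))
  refine integral_congr_ae (Eventually.of_forall fun x => ?_)
  simp only [norm_pow]

theorem beta_zero {d N : ℕ} (u : Fin N → (Fin d → ℝ) → ℂ) (hu : ∀ i, MemLp (u i) 2 volume)
    (ho : ∀ i j, ∫ x, u i x * u j x = 0)
    (c : Fin N → ℂ) : (∫ x, (∑ n, c n * u n x) ^ 2).re ≤ 0 * ∑ n, ‖c n‖ ^ 2 := by
  have hint : ∀ i j, Integrable (fun x => u i x * u j x) volume := fun i j =>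
    (hu i).integrable_mul (hu j)
  have e : ∀ x, (∑ n, c n * u n x) ^ 2 = ∑ i, ∑ j, (c i * c j) * (u i x * u j x) := by
    intro x
    rw [sq, Finset.sum_mul_sum]
    exact Finset.sum_congr rfl fun i _ => Finset.sum_congr rfl fun j _ => by ring
  simp only [e]
  rw [integral_finsetSum _ fun i _ => integrable_finsetSum _ fun j _ => (hint i j).const_mul _]
  have : ∀ i, ∫ x, ∑ j, (c i * c j) * (u i x * u j x) = 0 := by
    intro i
    rw [integral_finsetSum _ fun j _ => (hint i j).const_mul _]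
    simp only [integral_const_mul, ho, mul_zero, Finset.sum_const_zero]
  simp only [this, Finset.sum_const_zero, Complex.zero_re, zero_mul, le_refl]

theorem complex_odd (d : ℕ) (hd : 1 ≤ d) (J : Finset (Fin d)) (β : ℝ) (hβ0 : 0 ≤ β) (N : ℕ)
    (u : Fin N → (Fin d → ℝ) → ℂ) (g : Fin N → Fin d → (Fin d → ℝ) → ℂ)
    (hu : ∀ i, WGradC (u i) (g i))
    (ho : ∀ i j, ∫ x, (starRingEnd ℂ) (u i x) * u j x = if i = j then 1 else 0)
    (hodd : ∀ j ∈ J, ∀ n, ∀ᵐ x, u n (Function.update x j (-(x j))) = - u n x)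
    (hβ : ∀ c : Fin N → ℂ, (∫ x, (∑ n, c n * u n x) ^ 2).re ≤ β * ∑ n, ‖c n‖ ^ 2) :
    Integrable (fun x => (∑ i, ‖u i x‖ ^ 2) ^ (1 + 2 / (d:ℝ))) ∧
    (3 * 4 ^ J.card / (1 + β) ^ 2) ^ (1 / (d:ℝ)) * Kcl d *
      ∫ x, (∑ i, ‖u i x‖ ^ 2) ^ (1 + 2 / (d:ℝ)) ≤ ∑ i, ∑ k, ∫ x, ‖g i k x‖ ^ 2 := by
  obtain ⟨m, rfl⟩ : ∃ m, d = m + 1 := ⟨d - 1, by omega⟩
  have hsq : ∀ z : ℂ, ‖z‖ ^ 2 = z.re ^ 2 + z.im ^ 2 := by
    intro z
    rw [Complex.sq_norm, Complex.normSq_apply]; ring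
  set lam : ℝ := (1 + β) / 2 with hlam
  have hlam0 : 0 < lam := by positivity
  set s : ℝ := (√lam)⁻¹ with hs
  have hs0 : 0 < s := by positivity
  have hs2 : s ^ 2 = lam⁻¹ := by rw [hs, inv_pow, Real.sq_sqrt hlam0.le]
  let F : Fin (N + N) → (Fin (m + 1) → ℝ) → ℝ :=
    Fin.append (fun i x => s * (u i x).re) (fun i x => s * (u i x).im)
  let G : Fin (N + N) → Fin (m + 1) → (Fin (m + 1) → ℝ) → ℝ :=
    Fin.append (fun i k x => s * (g i k x).re) (fun i k x => s * (g i k x).im)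
  have hFl : ∀ i, F (Fin.castAdd N i) = fun x => s * (u i x).re := fun i => Fin.append_left _ _ i
  have hFr : ∀ i, F (Fin.natAdd N i) = fun x => s * (u i x).im := fun i => Fin.append_right _ _ i
  have hGl : ∀ i, G (Fin.castAdd N i) = fun k x => s * (g i k x).re :=
    fun i => Fin.append_left _ _ i
  have hGr : ∀ i, G (Fin.natAdd N i) = fun k x => s * (g i k x).im :=
    fun i => Fin.append_right _ _ i
  have hsm : ∀ {f : (Fin (m + 1) → ℝ) → ℝ} {g : Fin (m + 1) → (Fin (m + 1) → ℝ) → ℝ},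
      WGrad f g → WGrad (fun x => s * f x) (fun k x => s * g k x) := by
    intro f g h
    refine ⟨h.f2.const_mul s, fun k => (h.g2 k).const_mul s, fun k φ hφ hc => ?_⟩
    have := h.weak k φ hφ hc
    simp only [mul_assoc]
    rw [integral_const_mul, integral_const_mul, this]
    ring
  have hW : ∀ i, WGrad (F i) (G i) := by
    intro i
    refine Fin.addCases (fun i => ?_) (fun i => ?_) i
    · rw [hFl, hGl]
      exact hsm (split_complex (hu i)).1
    · rw [hFr, hGr]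
      exact hsm (split_complex (hu i)).2
  have hG : ∀ v : Fin (N + N) → ℝ, ∫ x, (∑ i, v i * F i x) ^ 2 ≤ ∑ i, v i ^ 2 := by
    intro v
    have h1 := gram_beta u (fun i => (hu i).f2) ho hβ (fun i => v (Fin.castAdd N i))
      (fun i => v (Fin.natAdd N i))
    have h2 : ∀ x, ∑ i, v i * F i x = s * ∑ i : Fin N, (v (Fin.castAdd N i) * (u i x).re +
        v (Fin.natAdd N i) * (u i x).im) := by
      intro x
      rw [Fin.sum_univ_add, Finset.sum_add_distrib]
      simp only [hFl, hFr]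
      rw [mul_add, Finset.mul_sum, Finset.mul_sum]
      congr 1 <;> exact Finset.sum_congr rfl fun i _ => by ring
    have h3 : ∑ i, v i ^ 2 = ∑ i : Fin N, (v (Fin.castAdd N i) ^ 2 + v (Fin.natAdd N i) ^ 2) := by
      rw [Fin.sum_univ_add, Finset.sum_add_distrib]
    simp only [h2, mul_pow]
    rw [h3, integral_const_mul, hs2]
    rw [inv_mul_le_iff₀ hlam0]
    exact h1
  have hoF : ∀ j ∈ J, ∀ i, ∀ᵐ x, F i (refl j x) = - F i x := by
    intro j hj i
    refine Fin.addCases (fun i => ?_) (fun i => ?_) i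
    · rw [hFl]
      filter_upwards [hodd j hj i] with x hx
      rw [refl_eq, hx]
      simp
    · rw [hFr]
      filter_upwards [hodd j hj i] with x hx
      rw [refl_eq, hx]
      simp
  have hH := real_odd m (N + N) F G hW J hoF hG
  have hFs : ∀ x, ∑ i, F i x ^ 2 = lam⁻¹ * ∑ i, ‖u i x‖ ^ 2 := by
    intro x
    rw [Fin.sum_univ_add, ← Finset.sum_add_distrib, Finset.mul_sum]
    simp only [hFl, hFr, hsq]
    refine Finset.sum_congr rfl fun i _ => ?_
    rw [mul_pow, mul_pow, hs2]; ring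
  have hGs : ∀ x, ∑ j, ∑ i, G i j x ^ 2 = lam⁻¹ * ∑ i, ∑ j, ‖g i j x‖ ^ 2 := by
    intro x
    rw [Finset.sum_comm, Fin.sum_univ_add, ← Finset.sum_add_distrib, Finset.mul_sum]
    refine Finset.sum_congr rfl fun i _ => ?_
    rw [← Finset.sum_add_distrib, Finset.mul_sum]
    simp only [hGl, hGr, hsq]
    refine Finset.sum_congr rfl fun i _ => ?_
    rw [mul_pow, mul_pow, hs2]; ring
  have hρ0 : ∀ x, 0 ≤ ∑ i, ‖u i x‖ ^ 2 := fun x => Finset.sum_nonneg fun i _ => sq_nonneg _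
  simp only [hFs, hGs, const_final, final_thm_pp] at hH
  set P : ℝ := 1 + 2 / ((m + 1 : ℕ) : ℝ) with hP
  have hmul : ∀ x, (lam⁻¹ * ∑ i, ‖u i x‖ ^ 2) ^ P = lam⁻¹ ^ P * (∑ i, ‖u i x‖ ^ 2) ^ P := fun x =>
    Real.mul_rpow (by positivity) (hρ0 x)
  simp only [hmul] at hH
  have hlp : 0 < lam⁻¹ ^ P := Real.rpow_pos_of_pos (by positivity) _
  have hI0 : Integrable (fun x => (∑ i, ‖u i x‖ ^ 2) ^ P) := by
    have := hH.1.const_mul ((lam⁻¹ ^ P)⁻¹)
    refine this.congr (Eventually.of_forall fun x => ?_)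
    simp only
    rw [← mul_assoc, inv_mul_cancel₀ hlp.ne', one_mul]
  refine ⟨hI0, ?_⟩
  have hI : ∀ i k, Integrable (fun x => ‖g i k x‖ ^ 2) := by
    intro i k
    have := (hu i).g2 k
    exact this.integrable_norm_pow two_ne_zero
  have hint : ∫ x, ∑ i, ∑ j, ‖g i j x‖ ^ 2 = ∑ i, ∑ k, ∫ x, ‖g i k x‖ ^ 2 := by
    rw [integral_finsetSum _ (fun i _ => integrable_finsetSum _ (fun k _ => hI i k))]
    refine Finset.sum_congr rfl fun i _ => ?_
    rw [integral_finsetSum _ (fun k _ => hI i k)]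
  have h5 := hH.2
  rw [integral_const_mul, integral_const_mul, hint] at h5
  have h6 : ((m + 1 : ℕ) : ℝ) = (m : ℝ) + 1 := by push_cast; ring
  rw [← h6] at h5
  have hD : (0:ℝ) < ((m + 1 : ℕ) : ℝ) := by positivity
  set D : ℝ := ((m + 1 : ℕ) : ℝ) with hDdef
  set A := ∫ x, (∑ i, ‖u i x‖ ^ 2) ^ P with hA
  set T := ∑ i, ∑ k, ∫ x, ‖g i k x‖ ^ 2 with hT
  have hP1 : P = 1 + 2 * (1 / D) := by rw [hP]; ring
  have e1 : (2:ℝ) ^ (P - 1) = 4 ^ (1 / D) := by
    have : P - 1 = 2 * (1 / D) := by rw [hP1]; ring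
    rw [this, Real.rpow_mul (by norm_num)]
    norm_num
  have e2 : ((4:ℝ) ^ (1 / D)) ^ J.card = (4 ^ J.card) ^ (1 / D) :=
    Real.rpow_pow_comm (by norm_num) _ _
  have e3 : lam⁻¹ ^ P * lam = (lam⁻¹ ^ 2) ^ (1 / D) := by
    rw [hP1, Real.rpow_add (by positivity), Real.rpow_one, Real.rpow_mul (by positivity),
      Real.rpow_two]
    have : lam⁻¹ * (lam⁻¹ ^ 2) ^ (1 / D) * lam = (lam⁻¹ * lam) * (lam⁻¹ ^ 2) ^ (1 / D) := by ring
    rw [this, inv_mul_cancel₀ hlam0.ne', one_mul]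
  have e4 : (3 * 4 ^ J.card / (1 + β) ^ 2) ^ (1 / D) =
      (4 ^ J.card) ^ (1 / D) * (3 / 4) ^ (1 / D) * (lam⁻¹ ^ 2) ^ (1 / D) := by
    rw [← Real.mul_rpow (by positivity) (by norm_num), ← Real.mul_rpow (by positivity)
      (by positivity)]
    congr 1
    rw [hlam]
    field_simp
    norm_num
  rw [e1, e2] at h5
  have h7 := mul_le_mul_of_nonneg_right h5 hlam0.le
  have h8 : lam⁻¹ * T * lam = T := by
    rw [mul_comm (lam⁻¹) T, mul_assoc, inv_mul_cancel₀ hlam0.ne', mul_one]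
  rw [h8] at h7
  refine le_trans (le_of_eq ?_) h7
  rw [e4, ← e3]
  ring

end Pool.Agent.Q232.LT
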