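import Pool.Agent.Q232.LT.Step

/-!
# Lieb-Thirring for odd families: approximation and the inequality for Sobolev functions
-/

set_option autoImplicit false

open MeasureTheory Set Filter Topology Real
open scoped Matrix

namespace Pool.Agent.Q232.LT

open LTd

/-- the reflection as a homeomorphism -/
def reflH {d : ℕ} (j : Fin d) : (Fin d → ℝ) ≃ₜ (Fin d → ℝ) where
  toFun := refl j
  invFun := refl j
  left_inv := refl_refl j
  right_inv := refl_refl j
  continuous_toFun := (contDiff_refl j).continuous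
  continuous_invFun := (contDiff_refl j).continuous

theorem approx_odd {d n : ℕ} (f : Fin n → (Fin d → ℝ) → ℝ) (g : Fin n → Fin d → (Fin d → ℝ) → ℝ)
    (hf : ∀ i, WGrad (f i) (g i)) (S : Finset (Fin d))
    (hodd : ∀ j ∈ S, ∀ i, ∀ᵐ x, f i (refl j x) = - f i x) :
    ∃ F : ℕ → Fin n → (Fin d → ℝ) → ℝ, (∀ k i, ContDiff ℝ 1 (F k i)) ∧
      (∀ k i, HasCompactSupport (F k i)) ∧
      (∀ j ∈ S, ∀ k i x, F k i (refl j x) = - F k i x) ∧
      (∀ k (v : Fin n → ℝ), ∫ x, (∑ i, v i * F k i x) ^ 2 ≤ ∫ x, (∑ i, v i * f i x) ^ 2) ∧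
      (∀ᵐ x, ∀ i, Tendsto (fun k => F k i x) atTop (𝓝 (f i x))) ∧
      ∀ k : ℕ, ∫ x, ∑ j, ∑ i, pd j (F k i) x ^ 2 ≤
        (∫ x, ∑ j, ∑ i, g i j x ^ 2) + 1 / ((k:ℝ) + 1) := by
  induction S using Finset.induction_on with
  | empty =>
    obtain ⟨F, h1, h2, h3, h4, h5⟩ := H_approx f g hf
    exact ⟨F, h1, h2, by simp, h3, h4, h5⟩
  | insert j S hj ih =>
    obtain ⟨F, h1, h2, h3, h4, h5, h6⟩ := ih fun j' hj' => hodd j' (Finset.mem_insert_of_mem hj')
    have hcd : ∀ k i, ContDiff ℝ 1 (fun x => F k i (refl j x)) := fun k i =>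
      (h1 k i).comp (contDiff_refl j)
    have hcs : ∀ k i, HasCompactSupport (fun x => F k i (refl j x)) := fun k i =>
      (h2 k i).comp_homeomorph (reflH j)
    refine ⟨fun k i x => (F k i x - F k i (refl j x)) / 2, ?_, ?_, ?_, ?_, ?_, ?_⟩
    · intro k i
      exact ((h1 k i).sub (hcd k i)).div_const 2
    · intro k i
      have h : HasCompactSupport (fun x => F k i x - F k i (refl j x)) := (h2 k i).sub (hcs k i)
      exact h.comp_left (g := fun t : ℝ => t / 2) (by simp)
    · intro j' hj' k i x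
      rcases Finset.mem_insert.1 hj' with rfl | hj''
      · simp only [refl_refl]; ring
      · simp only
        rw [refl_comm j j', h3 j' hj'', h3 j' hj'']
        ring
    · intro k v
      refine le_trans ?_ (h4 k v)
      set A : (Fin d → ℝ) → ℝ := fun x => ∑ i, v i * F k i x with hA
      have hAc : Continuous A :=
        continuous_finsetSum _ fun i _ => continuous_const.mul (h1 k i).continuous
      have hAi : Integrable (fun x => A x ^ 2) := by
        refine Continuous.integrable_of_hasCompactSupport (hAc.pow 2) ?_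
        exact cs_fam' (F k) (h2 k) _ (fun x hx => by simp [hA, hx])
      have hAr : Integrable (fun x => A (refl j x) ^ 2) :=
        (refl_mp j).integrable_comp_of_integrable hAi
      have e1 : ∀ x, ∑ i, v i * ((F k i x - F k i (refl j x)) / 2) = (A x - A (refl j x)) / 2 := by
        intro x
        simp only [hA]
        rw [← Finset.sum_sub_distrib, Finset.sum_div]
        exact Finset.sum_congr rfl fun i _ => by ring
      simp only [e1]
      have e2 : ∫ x, A x ^ 2 = ∫ x, (A x ^ 2 + A (refl j x) ^ 2) / 2 := by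
        rw [integral_div, integral_add hAi hAr, integral_refl j (fun x => A x ^ 2)]
        ring
      rw [e2]
      refine integral_mono_of_nonneg (Eventually.of_forall fun x => sq_nonneg _)
        ((hAi.add hAr).div_const 2) (Eventually.of_forall fun x => ?_)
      simp only
      nlinarith [sq_nonneg (A x + A (refl j x))]
    · have h5' : ∀ᵐ x, ∀ i, Tendsto (fun k => F k i (refl j x)) atTop (𝓝 (f i (refl j x))) :=
        (refl_mp j).quasiMeasurePreserving.ae h5
      have ho : ∀ᵐ x, ∀ i, f i (refl j x) = - f i x := by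
        rw [ae_all_iff]
        exact hodd j (Finset.mem_insert_self j S)
      filter_upwards [h5, h5', ho] with x a b c i
      have := ((a i).sub (b i)).div_const 2
      rw [c i] at this
      have e : (f i x - -f i x) / 2 = f i x := by ring
      rwa [e] at this
    · intro k
      refine le_trans ?_ (h6 k)
      have hpi : ∀ l i, Integrable (fun x => pd l (F k i) x ^ 2) := by
        intro l i
        obtain ⟨a, b⟩ := pd_basic (h1 k i) (h2 k i) l
        have b' : HasCompactSupport (fun x => pd l (F k i) x ^ 2) :=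
          b.comp_left (g := fun t : ℝ => t ^ 2) (by simp)
        exact Continuous.integrable_of_hasCompactSupport (a.pow 2) b'
      have hei : Integrable (fun x => ∑ l, ∑ i, pd l (F k i) x ^ 2) :=
        integrable_finsetSum _ fun l _ => integrable_finsetSum _ fun i _ => hpi l i
      have her : Integrable (fun x => ∑ l, ∑ i, pd l (F k i) (refl j x) ^ 2) :=
        (refl_mp j).integrable_comp_of_integrable hei
      have e2 : ∫ x, ∑ l, ∑ i, pd l (F k i) x ^ 2 =
          ∫ x, ((∑ l, ∑ i, pd l (F k i) x ^ 2) + ∑ l, ∑ i, pd l (F k i) (refl j x) ^ 2) / 2 := by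
        rw [integral_div, integral_add hei her,
          integral_refl j (fun x => ∑ l, ∑ i, pd l (F k i) x ^ 2)]
        ring
      rw [e2]
      refine integral_mono_of_nonneg (Eventually.of_forall fun x =>
        Finset.sum_nonneg fun l _ => Finset.sum_nonneg fun i _ => sq_nonneg _)
        ((hei.add her).div_const 2) (Eventually.of_forall fun x => ?_)
      simp only
      rw [← Finset.sum_add_distrib, Finset.sum_div]
      refine Finset.sum_le_sum fun l _ => ?_
      rw [← Finset.sum_add_distrib, Finset.sum_div]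
      refine Finset.sum_le_sum fun i _ => ?_
      have e3 : pd l (fun x => (F k i x - F k i (refl j x)) / 2) x =
          (pd l (F k i) x - sg j l * pd l (F k i) (refl j x)) / 2 := by
        rw [← pd_refl j l (h1 k i) x]
        unfold pd
        have d1 := ((h1 k i).differentiable (by norm_num) x).hasFDerivAt
        have d2 := ((hcd k i).differentiable (by norm_num) x).hasFDerivAt
        have d4 : HasFDerivAt (fun x => (F k i x - F k i (refl j x)) / 2)
            ((2⁻¹ : ℝ) • (fderiv ℝ (F k i) x - fderiv ℝ (fun y => F k i (refl j y)) x)) x := by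
          have d3 := (d1.sub d2).const_mul (2⁻¹ : ℝ)
          have e : (fun x => (F k i x - F k i (refl j x)) / 2) =
              fun y => (2⁻¹ : ℝ) * (F k i - fun x => F k i (refl j x)) y := by
            funext y
            simp only [Pi.sub_apply]
            ring
          rw [e]
          exact d3
        rw [d4.fderiv]
        simp only [ContinuousLinearMap.smul_apply, smul_eq_mul]
        have : (fderiv ℝ (F k i) x - fderiv ℝ (fun y => F k i (refl j y)) x) (Pi.single l 1) =
          (fderiv ℝ (F k i) x) (Pi.single l 1) -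
          (fderiv ℝ (fun y => F k i (refl j y)) x) (Pi.single l 1) := rfl
        rw [this]
        ring
      rw [e3]
      have h4 := sg_sq j l
      have h7 : pd l (F k i) (refl j x) ^ 2 = (sg j l * pd l (F k i) (refl j x)) ^ 2 := by
        rw [mul_pow, h4, one_mul]
      rw [h7]
      nlinarith [sq_nonneg (pd l (F k i) x + sg j l * pd l (F k i) (refl j x))]

/-- the inequality for Sobolev functions which are odd in the coordinates in `S` -/
theorem real_odd (m n : ℕ) (f : Fin n → (Fin (m + 1) → ℝ) → ℝ)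
    (g : Fin n → Fin (m + 1) → (Fin (m + 1) → ℝ) → ℝ) (hf : ∀ i, WGrad (f i) (g i))
    (S : Finset (Fin (m + 1))) (hodd : ∀ j ∈ S, ∀ i, ∀ᵐ x, f i (refl j x) = - f i x)
    (hG : ∀ v : Fin n → ℝ, ∫ x, (∑ i, v i * f i x) ^ 2 ≤ ∑ i, v i ^ 2) :
    Integrable (fun x => (∑ i, f i x ^ 2) ^ pp (3 / 2 + m / 2)) ∧
    (2 ^ (pp (3 / 2 + (m:ℝ) / 2) - 1)) ^ S.card * bco (m / 2) (3 / 2) (π ^ 2 / 4) *
      ∫ x, (∑ i, f i x ^ 2) ^ pp (3 / 2 + m / 2) ≤ ∫ x, ∑ j, ∑ i, g i j x ^ 2 := by
  have hp : 0 < pp (3 / 2 + (m:ℝ) / 2) := pp_pos m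
  have hb0 : 0 < bco ((m:ℝ) / 2) (3 / 2) (π ^ 2 / 4) :=
    bco_pos (by positivity) (by norm_num) (by positivity)
  set p := pp (3 / 2 + (m:ℝ) / 2) with hpdef
  set b := (2 ^ (p - 1)) ^ S.card * bco ((m:ℝ) / 2) (3 / 2) (π ^ 2 / 4) with hbdef
  have hb : 0 < b := by positivity
  set E := ∫ x, ∑ j, ∑ i, g i j x ^ 2 with hE
  have hE0 : 0 ≤ E := integral_nonneg fun x =>
    Finset.sum_nonneg fun j _ => Finset.sum_nonneg fun i _ => sq_nonneg _
  obtain ⟨F, hF1, hF2, hFo, hF3, hF4, hF5⟩ := approx_odd f g hf S hodd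
  have hcont : ∀ k, Continuous fun x => (∑ i, F k i x ^ 2) ^ p := by
    intro k
    refine Continuous.rpow_const ?_ (fun x => Or.inr hp.le)
    exact continuous_finsetSum _ fun i _ => ((hF1 k i).continuous.pow 2)
  have hcs : ∀ k, HasCompactSupport fun x => (∑ i, F k i x ^ 2) ^ p := by
    intro k
    exact cs_fam' (F k) (hF2 k) _ (fun x hx => by simp [hx, Real.zero_rpow hp.ne'])
  have hint : ∀ k, Integrable fun x => (∑ i, F k i x ^ 2) ^ p := fun k =>
    (hcont k).integrable_of_hasCompactSupport (hcs k)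
  have hnn : ∀ k x, 0 ≤ (∑ i, F k i x ^ 2) ^ p := fun k x =>
    Real.rpow_nonneg (Finset.sum_nonneg fun i _ => sq_nonneg _) _
  have hnn' : ∀ x, 0 ≤ (∑ i, f i x ^ 2) ^ p := fun x =>
    Real.rpow_nonneg (Finset.sum_nonneg fun i _ => sq_nonneg _) _
  have hbound : ∀ k : ℕ, ∫ x, (∑ i, F k i x ^ 2) ^ p ≤ (E + 1 / ((k:ℝ) + 1)) / b := by
    intro k
    rw [le_div_iff₀' hb]
    exact (oddIneq m S n (F k) (hF1 k) (hF2 k) (fun j hj i x => hFo j hj k i x)
      (fun v => (hF3 k v).trans (hG v))).trans (hF5 k)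
  have hlim : ∀ᵐ x, Tendsto (fun k => (∑ i, F k i x ^ 2) ^ p) atTop (𝓝 ((∑ i, f i x ^ 2) ^ p)) := by
    filter_upwards [hF4] with x hx
    exact (tendsto_finsetSum _ fun i _ => (hx i).pow 2).rpow_const (Or.inr hp.le)
  have haesm : AEStronglyMeasurable (fun x => (∑ i, f i x ^ 2) ^ p) volume :=
    aestronglyMeasurable_of_tendsto_ae atTop (fun k => (hint k).aestronglyMeasurable) hlim
  have hfatou : ∫⁻ x, ENNReal.ofReal ((∑ i, f i x ^ 2) ^ p) ≤ ENNReal.ofReal (E / b) := by
    calc ∫⁻ x, ENNReal.ofReal ((∑ i, f i x ^ 2) ^ p)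
        = ∫⁻ x, liminf (fun k => ENNReal.ofReal ((∑ i, F k i x ^ 2) ^ p)) atTop := by
          apply lintegral_congr_ae
          filter_upwards [hlim] with x hx
          exact ((ENNReal.continuous_ofReal.tendsto _).comp hx).liminf_eq.symm
      _ ≤ liminf (fun k => ∫⁻ x, ENNReal.ofReal ((∑ i, F k i x ^ 2) ^ p)) atTop :=
          lintegral_liminf_le' fun k => (hcont k).measurable.ennreal_ofReal.aemeasurable
      _ ≤ liminf (fun k : ℕ => ENNReal.ofReal ((E + 1 / ((k:ℝ) + 1)) / b)) atTop := by
          refine liminf_le_liminf (Eventually.of_forall fun k => ?_)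
          change ∫⁻ x, ENNReal.ofReal ((∑ i, F k i x ^ 2) ^ p) ≤ _
          rw [← ofReal_integral_eq_lintegral_ofReal (hint k) (Eventually.of_forall (hnn k))]
          exact ENNReal.ofReal_le_ofReal (hbound k)
      _ = ENNReal.ofReal (E / b) := by
          apply Tendsto.liminf_eq
          apply (ENNReal.continuous_ofReal.tendsto _).comp
          have h1 : Tendsto (fun k : ℕ => (E + 1 / ((k:ℝ) + 1)) / b) atTop (𝓝 ((E + 0) / b)) :=
            (tendsto_one_div_add_atTop_nhds_zero_nat.const_add E).div_const b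
          rwa [add_zero] at h1
  have hI : Integrable (fun x => (∑ i, f i x ^ 2) ^ p) := by
    refine ⟨haesm, ?_⟩
    rw [hasFiniteIntegral_iff_ofReal (Eventually.of_forall hnn')]
    exact lt_of_le_of_lt hfatou ENNReal.ofReal_lt_top
  refine ⟨hI, ?_⟩
  rw [← le_div_iff₀' hb, integral_eq_lintegral_of_nonneg_ae (Eventually.of_forall hnn') haesm]
  exact ENNReal.toReal_le_of_le_ofReal (by positivity) hfatou

end Pool.Agent.Q232.LT
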