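import Pool.Agent.Helper717.LT.P_final_thm

/-!
# Lieb-Thirring: families of functions which are odd in some coordinates
-/

set_option autoImplicit false

open MeasureTheory Set Filter Topology Real
open scoped Matrix

namespace Pool.Agent.Q232.LT

open LTd

/-- the signs of the reflection in the hyperplane `x_j = 0` -/
def sg {d : ℕ} (j i : Fin d) : ℝ := if i = j then -1 else 1

/-- the reflection in the hyperplane `x_j = 0` -/
def refl {d : ℕ} (j : Fin d) (x : Fin d → ℝ) : Fin d → ℝ := fun i => sg j i * x i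

lemma sg_sq {d : ℕ} (j i : Fin d) : sg j i ^ 2 = 1 := by
  unfold sg; split_ifs <;> norm_num

lemma refl_eq {d : ℕ} (j : Fin d) (x : Fin d → ℝ) : refl j x = Function.update x j (-(x j)) := by
  funext i
  unfold refl sg
  by_cases h : i = j
  · subst h; simp
  · simp [h]

lemma refl_same {d : ℕ} (j : Fin d) (x : Fin d → ℝ) : refl j x j = - x j := by
  simp [refl, sg]

lemma refl_ne {d : ℕ} {j i : Fin d} (h : i ≠ j) (x : Fin d → ℝ) : refl j x i = x i := by
  simp [refl, sg, h]

lemma refl_refl {d : ℕ} (j : Fin d) (x : Fin d → ℝ) : refl j (refl j x) = x := by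
  funext i
  have := sg_sq j i
  unfold refl
  rw [← mul_assoc, ← sq, this, one_mul]

lemma refl_comm {d : ℕ} (j k : Fin d) (x : Fin d → ℝ) : refl j (refl k x) = refl k (refl j x) := by
  funext i
  unfold refl
  ring

lemma refl_mp {d : ℕ} (j : Fin d) :
    MeasurePreserving (refl j) (volume : Measure (Fin d → ℝ)) volume := by
  have h : ∀ i : Fin d, MeasurePreserving (fun t : ℝ => sg j i * t) volume volume := by
    intro i
    unfold sg
    by_cases h : i = j
    · have h1 := Measure.measurePreserving_neg (volume : Measure ℝ)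
      simp only [h, if_true]
      convert h1 using 1
      funext t
      simp
    · simp only [h, if_false, one_mul]
      exact MeasurePreserving.id _
  exact volume_preserving_pi h

/-- the reflection as a measurable equivalence -/
def reflE {d : ℕ} (j : Fin d) : (Fin d → ℝ) ≃ᵐ (Fin d → ℝ) where
  toFun := refl j
  invFun := refl j
  left_inv := refl_refl j
  right_inv := refl_refl j
  measurable_toFun := (refl_mp j).measurable
  measurable_invFun := (refl_mp j).measurable

lemma integral_refl {d : ℕ} {E : Type*} [NormedAddCommGroup E] [NormedSpace ℝ E] (j : Fin d)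
    (f : (Fin d → ℝ) → E) : ∫ x, f (refl j x) = ∫ x, f x :=
  (refl_mp j).integral_comp (reflE j).measurableEmbedding f

/-- the reflection as a continuous linear map -/
noncomputable def reflL {d : ℕ} (j : Fin d) : (Fin d → ℝ) →L[ℝ] (Fin d → ℝ) :=
  ContinuousLinearMap.pi fun i => sg j i • ContinuousLinearMap.proj i

lemma reflL_apply {d : ℕ} (j : Fin d) (x : Fin d → ℝ) : reflL j x = refl j x := by
  funext i
  simp [reflL, refl]

lemma pd_refl {d : ℕ} (j k : Fin d) {f : (Fin d → ℝ) → ℝ} (hf : ContDiff ℝ 1 f) (x : Fin d → ℝ) :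
    pd k (fun y => f (refl j y)) x = sg j k * pd k f (refl j x) := by
  unfold pd
  have h1 : (fun y => f (refl j y)) = fun y => f (reflL j y) := by
    funext y; rw [reflL_apply]
  have h2 : HasFDerivAt (fun y => f (reflL j y)) ((fderiv ℝ f (reflL j x)).comp (reflL j)) x :=
    ((hf.differentiable (by norm_num)) (reflL j x)).hasFDerivAt.comp x (reflL j).hasFDerivAt
  rw [h1, h2.fderiv, ContinuousLinearMap.comp_apply, reflL_apply, reflL_apply]
  have h3 : refl j (Pi.single k (1 : ℝ)) = sg j k • Pi.single k (1 : ℝ) := by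
    funext i
    unfold refl
    by_cases h : i = k
    · subst h; simp
    · simp [Pi.single_apply, h]
  rw [h3, map_smul, smul_eq_mul]

lemma contDiff_refl {d : ℕ} (j : Fin d) : ContDiff ℝ 1 (refl (d := d) j) := by
  have : refl (d := d) j = reflL j := by
    funext x; rw [reflL_apply]
  rw [this]
  exact (reflL j).contDiff

/-- half of the integral of an even function -/
lemma half_le {d : ℕ} (j : Fin d) {h : (Fin d → ℝ) → ℝ} (hi : Integrable h) (h0 : ∀ x, 0 ≤ h x)
    (he : ∀ x, h (refl j x) = h x) :
    2 * ∫ x, {x : Fin d → ℝ | 0 < x j}.indicator h x ≤ ∫ x, h x ∧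
    ((∀ x, x j = 0 → h x = 0) →
      2 * ∫ x, {x : Fin d → ℝ | 0 < x j}.indicator h x = ∫ x, h x) := by
  have m1 : MeasurableSet {x : Fin d → ℝ | 0 < x j} :=
    measurableSet_lt measurable_const (measurable_pi_apply j)
  have m2 : MeasurableSet {x : Fin d → ℝ | x j < 0} :=
    measurableSet_lt (measurable_pi_apply j) measurable_const
  have i1 : Integrable ({x : Fin d → ℝ | 0 < x j}.indicator h) := hi.indicator m1
  have i2 : Integrable ({x : Fin d → ℝ | x j < 0}.indicator h) := hi.indicator m2
  have e1 : ∫ x, {x : Fin d → ℝ | x j < 0}.indicator h x =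
      ∫ x, {x : Fin d → ℝ | 0 < x j}.indicator h x := by
    rw [← integral_refl j]
    refine integral_congr_ae (Eventually.of_forall fun x => ?_)
    by_cases hx : 0 < x j
    · have h1 : refl j x ∈ {x : Fin d → ℝ | x j < 0} := by
        simp only [mem_setOf_eq, refl_same]; linarith
      simp only
      rw [indicator_of_mem h1, indicator_of_mem (show x ∈ {x : Fin d → ℝ | 0 < x j} from hx), he]
    · have h1 : refl j x ∉ {x : Fin d → ℝ | x j < 0} := by
        simp only [mem_setOf_eq, refl_same]; linarith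
      simp only
      rw [indicator_of_notMem h1,
        indicator_of_notMem (show x ∉ {x : Fin d → ℝ | 0 < x j} from hx)]
  have e2 : 2 * ∫ x, {x : Fin d → ℝ | 0 < x j}.indicator h x =
      ∫ x, ({x : Fin d → ℝ | 0 < x j}.indicator h x + {x : Fin d → ℝ | x j < 0}.indicator h x) := by
    rw [integral_add i1 i2, e1]; ring
  have key : ∀ x, {x : Fin d → ℝ | 0 < x j}.indicator h x +
      {x : Fin d → ℝ | x j < 0}.indicator h x = if x j = 0 then 0 else h x := by
    intro x
    rcases lt_trichotomy (x j) 0 with hx | hx | hx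
    · rw [indicator_of_notMem (by simp only [mem_setOf_eq]; linarith),
        indicator_of_mem (by exact hx), zero_add, if_neg hx.ne]
    · rw [indicator_of_notMem (by simp only [mem_setOf_eq]; linarith),
        indicator_of_notMem (by simp only [mem_setOf_eq]; linarith), zero_add, if_pos hx]
    · rw [indicator_of_mem (by exact hx),
        indicator_of_notMem (by simp only [mem_setOf_eq]; linarith), add_zero, if_neg hx.ne']
  rw [e2]
  simp only [key]
  constructor
  · refine integral_mono_of_nonneg (Eventually.of_forall fun x => ?_) hi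
      (Eventually.of_forall fun x => ?_)
    · dsimp only
      split_ifs
      · exact le_rfl
      · exact h0 x
    · dsimp only
      split_ifs
      · exact h0 x
      · exact le_rfl
  · intro hz
    refine integral_congr_ae (Eventually.of_forall fun x => ?_)
    dsimp only
    split_ifs with hx
    · exact (hz x hx).symm
    · rfl

lemma pd_mul_coord {d : ℕ} (j k : Fin d) {τ : ℝ → ℝ} (hτ : Differentiable ℝ τ)
    {f : (Fin d → ℝ) → ℝ} (hf : ContDiff ℝ 1 f) (x : Fin d → ℝ) :
    pd k (fun y => τ (y j) * f y) x =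
      (if k = j then deriv τ (x j) else 0) * f x + τ (x j) * pd k f x := by
  unfold pd
  have h1 : HasFDerivAt (fun y : Fin d → ℝ => τ (y j))
      (deriv τ (x j) • (ContinuousLinearMap.proj j : (Fin d → ℝ) →L[ℝ] ℝ)) x := by
    have h := (hτ (x j)).hasDerivAt
    exact h.comp_hasFDerivAt x (ContinuousLinearMap.proj (R := ℝ) (φ := fun _ : Fin d => ℝ)
      j).hasFDerivAt
  have h2 := ((hf.differentiable (by norm_num)) x).hasFDerivAt
  have h3 : HasFDerivAt (fun y : Fin d → ℝ => τ (y j) * f y) _ x := h1.mul h2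
  rw [h3.fderiv]
  simp only [ContinuousLinearMap.add_apply, ContinuousLinearMap.smul_apply, smul_eq_mul,
    ContinuousLinearMap.proj_apply]
  by_cases h : k = j
  · subst h; simp; ring
  · simp [h, Pi.single_apply, Ne.symm h]

/-- the inequality with the constant `C` for families which are odd in the coordinates in `S` -/
def OddIneq (m : ℕ) (C : ℝ) (S : Finset (Fin (m + 1))) : Prop :=
  ∀ (n : ℕ) (w : Fin n → (Fin (m + 1) → ℝ) → ℝ), (∀ i, ContDiff ℝ 1 (w i)) →
    (∀ i, HasCompactSupport (w i)) → (∀ j ∈ S, ∀ i x, w i (refl j x) = - w i x) →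
    (∀ v : Fin n → ℝ, ∫ x, (∑ i, v i * w i x) ^ 2 ≤ ∑ i, v i ^ 2) →
    C * ∫ x, (∑ i, w i x ^ 2) ^ pp (3 / 2 + m / 2) ≤ ∫ x, ∑ k, ∑ i, pd k (w i) x ^ 2

lemma pp_pos (m : ℕ) : 0 < pp (3 / 2 + (m:ℝ) / 2) := by
  unfold pp
  have h0 : (0:ℝ) ≤ m := Nat.cast_nonneg m
  have h1 : (3 / 2 + (m:ℝ) / 2) - 1 = 1 / 2 + (m:ℝ) / 2 := by ring
  rw [h1]; positivity

lemma base (m : ℕ) : OddIneq m (bco (m / 2) (3 / 2) (π ^ 2 / 4)) ∅ :=
  fun n w hw hc _ hG => core m n w hw hc hG

end Pool.Agent.Q232.LT
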