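import Pool.Agent.Q232.LT.Odd

/-!
# Lieb-Thirring for odd families: the reflection step
-/

set_option autoImplicit false

open MeasureTheory Set Filter Topology Real
open scoped Matrix

namespace Pool.Agent.Q232.LT

open LTd

lemma deriv_st_of_neg {t : ℝ} (ht : t < 0) : deriv smoothTransition t = 0 := by
  have h : smoothTransition =ᶠ[𝓝 t] fun _ => (0:ℝ) := by
    filter_upwards [Iio_mem_nhds ht] with s hs
    exact smoothTransition.zero_of_nonpos (le_of_lt hs)
  rw [h.deriv_eq, deriv_const]

lemma deriv_st_of_one_lt {t : ℝ} (ht : 1 < t) : deriv smoothTransition t = 0 := by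
  have h : smoothTransition =ᶠ[𝓝 t] fun _ => (1:ℝ) := by
    filter_upwards [Ioi_mem_nhds ht] with s hs
    exact smoothTransition.one_of_one_le (le_of_lt hs)
  rw [h.deriv_eq, deriv_const]

lemma st_bound : ∃ M : ℝ, 0 ≤ M ∧ ∀ t : ℝ, |t * deriv smoothTransition t| ≤ M := by
  have hc : Continuous (fun t : ℝ => t * deriv smoothTransition t) :=
    continuous_id.mul ((smoothTransition.contDiff (n := 1)).continuous_deriv le_rfl)
  obtain ⟨M, hM⟩ := (isCompact_Icc (a := (0:ℝ)) (b := 1)).exists_bound_of_continuousOn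
    hc.continuousOn
  refine ⟨|M|, abs_nonneg _, fun t => ?_⟩
  by_cases h0 : t < 0
  · rw [deriv_st_of_neg h0]; simp
  by_cases h1 : 1 < t
  · rw [deriv_st_of_one_lt h1]; simp
  exact (hM t ⟨not_lt.1 h0, not_lt.1 h1⟩).trans (le_abs_self M)

/-- the cut-off `√2 σ((k+1)t)` -/
noncomputable def cut (k : ℕ) (t : ℝ) : ℝ := √2 * smoothTransition ((k + 1) * t)

lemma cut_contDiff (k : ℕ) : ContDiff ℝ 1 (cut k) := by
  unfold cut
  exact contDiff_const.mul (smoothTransition.contDiff.comp (contDiff_const.mul contDiff_id))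

lemma cut_deriv (k : ℕ) (t : ℝ) :
    deriv (cut k) t = √2 * ((k + 1) * deriv smoothTransition ((k + 1) * t)) := by
  have h1 : HasDerivAt smoothTransition (deriv smoothTransition (((k:ℝ) + 1) * t)) (((k:ℝ) + 1) * t) :=
    ((smoothTransition.contDiff (n := 1)).differentiable (by norm_num) _).hasDerivAt
  have h2 : HasDerivAt (fun s : ℝ => ((k:ℝ) + 1) * s) ((k:ℝ) + 1) t := by
    simpa using (hasDerivAt_id t).const_mul ((k:ℝ) + 1)
  have h3 := (h1.comp t h2).const_mul (√2)
  have h4 : cut k = fun s => √2 * (smoothTransition ∘ fun s : ℝ => ((k:ℝ) + 1) * s) s := rfl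
  rw [h4, h3.deriv]
  ring

lemma cut_sq (k : ℕ) (t : ℝ) : 0 ≤ cut k t ^ 2 ∧ cut k t ^ 2 ≤ 2 ∧ (t ≤ 0 → cut k t = 0) := by
  have h0 := smoothTransition.nonneg (((k:ℝ) + 1) * t)
  have h1 := smoothTransition.le_one (((k:ℝ) + 1) * t)
  have h2 : cut k t ^ 2 = 2 * smoothTransition (((k:ℝ) + 1) * t) ^ 2 := by
    unfold cut; rw [mul_pow, Real.sq_sqrt (by norm_num)]
  refine ⟨sq_nonneg _, ?_, fun ht => ?_⟩
  · rw [h2]; nlinarith
  · unfold cut
    rw [smoothTransition.zero_of_nonpos (mul_nonpos_of_nonneg_of_nonpos (by positivity) ht),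
      mul_zero]

lemma cut_eventually {t : ℝ} (ht : 0 < t) :
    ∀ᶠ k : ℕ in atTop, cut k t = √2 ∧ deriv (cut k) t = 0 := by
  obtain ⟨K, hK⟩ := exists_nat_gt (1 / t)
  filter_upwards [eventually_ge_atTop K] with k hk
  have h1 : 1 < ((k:ℝ) + 1) * t := by
    have h2 : (K:ℝ) ≤ k := Nat.cast_le.2 hk
    have h3 : 1 / t < (k:ℝ) + 1 := by linarith
    rwa [div_lt_iff₀ ht] at h3
  refine ⟨?_, ?_⟩
  · unfold cut
    rw [smoothTransition.one_of_one_le h1.le, mul_one]
  · rw [cut_deriv, deriv_st_of_one_lt h1]; simp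

/-- the reflection step -/
theorem step (m : ℕ) {C : ℝ} (hC : 0 ≤ C) {S : Finset (Fin (m + 1))} (h : OddIneq m C S)
    {j : Fin (m + 1)} (hj : j ∉ S) :
    OddIneq m (2 ^ (pp (3 / 2 + (m:ℝ) / 2) - 1) * C) (insert j S) := by
  intro n w hw hcw hodd hG
  set P := pp (3 / 2 + (m:ℝ) / 2) with hP
  have hP0 : 0 < P := pp_pos m
  obtain ⟨M, hM0, hM⟩ := st_bound
  -- the functions vanish on the hyperplane, and are bounded by a multiple of `|x j|`
  have hoj : ∀ i x, w i (refl j x) = - w i x := fun i x => hodd j (Finset.mem_insert_self j S) i x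
  have hlip : ∃ L : ℝ, 0 ≤ L ∧ ∀ i x, |w i x| ≤ L * |x j| := by
    have h1 : ∀ i, ∃ K, LipschitzWith K (w i) := fun i =>
      ContDiff.lipschitzWith_of_hasCompactSupport (hcw i) (hw i) (by norm_num)
    choose K hK using h1
    refine ⟨∑ i, (K i : ℝ), Finset.sum_nonneg fun i _ => (K i).2, fun i x => ?_⟩
    have h2 := (hK i).dist_le_mul x (refl j x)
    rw [hoj, Real.dist_eq] at h2
    have h3 : dist x (refl j x) ≤ 2 * |x j| := by
      rw [dist_pi_le_iff (by positivity)]
      intro l
      by_cases hl : l = j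
      · subst hl
        rw [refl_same, Real.dist_eq]
        have : x l - -x l = 2 * x l := by ring
        rw [this, abs_mul, abs_two]
      · rw [refl_ne hl, dist_self]; positivity
    have h4 : |w i x - -w i x| = 2 * |w i x| := by
      have : w i x - -w i x = 2 * w i x := by ring
      rw [this, abs_mul, abs_two]
    rw [h4] at h2
    have h5 : (K i : ℝ) ≤ ∑ i, (K i : ℝ) :=
      Finset.single_le_sum (f := fun i => (K i : ℝ)) (fun i _ => (K i).2) (Finset.mem_univ i)
    have h6 : (K i : ℝ) * dist x (refl j x) ≤ (∑ i, (K i : ℝ)) * (2 * |x j|) :=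
      mul_le_mul h5 h3 dist_nonneg (Finset.sum_nonneg fun i _ => (K i).2)
    nlinarith
  obtain ⟨L, hL0, hL⟩ := hlip
  have hz : ∀ i x, x j = 0 → w i x = 0 := by
    intro i x hx
    have := hL i x
    rw [hx, abs_zero, mul_zero] at this
    exact abs_nonpos_iff.1 this
  -- the density
  have hρc : Continuous (fun x => ∑ i, w i x ^ 2) :=
    continuous_finset_sum _ fun i _ => (hw i).continuous.pow 2
  have hρs : HasCompactSupport (fun x => ∑ i, w i x ^ 2) := by
    exact cs_fam' w hcw _ (fun x hx => by simp [hx])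
  have hρ0 : ∀ x, 0 ≤ ∑ i, w i x ^ 2 := fun x => Finset.sum_nonneg fun i _ => sq_nonneg _
  have hρP : Integrable (fun x => (∑ i, w i x ^ 2) ^ P) := by
    refine Continuous.integrable_of_hasCompactSupport (hρc.rpow_const fun x => Or.inr hP0.le) ?_
    exact hρs.comp_left (g := fun t : ℝ => t ^ P) (Real.zero_rpow hP0.ne')
  -- the energy density
  have hpi : ∀ l i, Integrable (fun x => pd l (w i) x ^ 2) := by
    intro l i
    obtain ⟨a, b⟩ := pd_basic (hw i) (hcw i) l
    have b' : HasCompactSupport (fun x => pd l (w i) x ^ 2) :=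
      b.comp_left (g := fun t : ℝ => t ^ 2) (by simp)
    exact Continuous.integrable_of_hasCompactSupport (a.pow 2) b'
  have hei : Integrable (fun x => ∑ l, ∑ i, pd l (w i) x ^ 2) :=
    integrable_finset_sum _ fun l _ => integrable_finset_sum _ fun i _ => hpi l i
  have hpr : ∀ l i x, pd l (w i) (refl j x) ^ 2 = pd l (w i) x ^ 2 := by
    intro l i x
    have h1 := pd_refl j l (hw i) x
    have h2 : (fun y => w i (refl j y)) = fun y => - w i y := by
      funext y; exact hoj i y
    have h3 : pd l (fun y => - w i y) x = - pd l (w i) x := by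
      unfold pd
      have : (fun y => - w i y) = - w i := rfl
      rw [this, fderiv_neg]
      simp
    rw [h2, h3] at h1
    have h4 := sg_sq j l
    calc pd l (w i) (refl j x) ^ 2 = sg j l ^ 2 * pd l (w i) (refl j x) ^ 2 := by rw [h4, one_mul]
      _ = (sg j l * pd l (w i) (refl j x)) ^ 2 := by ring
      _ = pd l (w i) x ^ 2 := by rw [← h1]; ring
  -- the cut-off family
  set W : ℕ → Fin n → (Fin (m + 1) → ℝ) → ℝ := fun k i x => cut k (x j) * w i x with hW
  have hWd : ∀ k l i x, pd l (W k i) x =
      (if l = j then deriv (cut k) (x j) else 0) * w i x + cut k (x j) * pd l (w i) x :=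
    fun k l i x => pd_mul_coord j l ((cut_contDiff k).differentiable (by norm_num)) (hw i) x
  have key : ∀ k, C * ∫ x, (∑ i, W k i x ^ 2) ^ P ≤ ∫ x, ∑ l, ∑ i, pd l (W k i) x ^ 2 := by
    intro k
    refine h n (W k) (fun i => ?_) (fun i => ?_) (fun j' hj' i x => ?_) (fun v => ?_)
    · exact ((cut_contDiff k).comp (contDiff_apply ℝ ℝ j)).mul (hw i)
    · exact (hcw i).mul_left
    · have hne : j ≠ j' := fun e => hj (e ▸ hj')
      simp only [hW]
      rw [refl_ne hne, hodd j' (Finset.mem_insert_of_mem hj') i x]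
      ring
    · have e1 : ∀ x, (∑ i, v i * W k i x) ^ 2 = cut k (x j) ^ 2 * (∑ i, v i * w i x) ^ 2 := by
        intro x
        rw [← mul_pow, Finset.mul_sum]
        congr 1
        refine Finset.sum_congr rfl fun i _ => ?_
        simp only [hW]; ring
      have hci : Integrable (fun x => (∑ i, v i * w i x) ^ 2) := by
        refine Continuous.integrable_of_hasCompactSupport
          ((continuous_finset_sum _ fun i _ => continuous_const.mul (hw i).continuous).pow 2) ?_
        exact cs_fam' w hcw _ (fun x hx => by simp [hx])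
      have hh := (half_le j hci (fun x => sq_nonneg _) (fun x => by
        have : ∑ i, v i * w i (refl j x) = - ∑ i, v i * w i x := by
          rw [← Finset.sum_neg_distrib]
          refine Finset.sum_congr rfl fun i _ => ?_
          rw [hoj]; ring
        rw [this]; ring)).1
      refine le_trans ?_ (hh.trans (hG v))
      rw [← integral_const_mul]
      refine integral_mono_of_nonneg (Eventually.of_forall fun x => sq_nonneg _)
        ((hci.indicator (measurableSet_lt measurable_const (measurable_pi_apply j))).const_mul 2)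
        (Eventually.of_forall fun x => ?_)
      simp only
      rw [e1 x]
      obtain ⟨c0, c1, c2⟩ := cut_sq k (x j)
      by_cases hx : 0 < x j
      · rw [indicator_of_mem (show x ∈ {x : Fin (m + 1) → ℝ | 0 < x j} from hx)]
        exact mul_le_mul_of_nonneg_right c1 (sq_nonneg _)
      · rw [indicator_of_notMem (show x ∉ {x : Fin (m + 1) → ℝ | 0 < x j} from hx),
          c2 (not_lt.1 hx)]
        simp
  -- the left side converges
  have limL : Tendsto (fun k => ∫ x, (∑ i, W k i x ^ 2) ^ P) atTop
      (𝓝 (∫ x, {x : Fin (m + 1) → ℝ | 0 < x j}.indicator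
        (fun x => (2 * ∑ i, w i x ^ 2) ^ P) x)) := by
    have e1 : ∀ k x, ∑ i, W k i x ^ 2 = cut k (x j) ^ 2 * ∑ i, w i x ^ 2 := by
      intro k x
      rw [Finset.mul_sum]
      refine Finset.sum_congr rfl fun i _ => ?_
      simp only [hW]; ring
    have hWc : ∀ k i, Continuous (W k i) := fun k i =>
      (((cut_contDiff k).continuous).comp (continuous_apply j)).mul (hw i).continuous
    refine tendsto_integral_of_dominated_convergence (fun x => 2 ^ P * (∑ i, w i x ^ 2) ^ P)
      (fun k => ?_) (hρP.const_mul _) (fun k => Eventually.of_forall fun x => ?_)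
      (Eventually.of_forall fun x => ?_)
    · exact ((continuous_finset_sum _ fun i _ => (hWc k i).pow 2).rpow_const
        fun x => Or.inr hP0.le).aestronglyMeasurable
    · obtain ⟨c0, c1, c2⟩ := cut_sq k (x j)
      rw [e1, Real.norm_of_nonneg (Real.rpow_nonneg (mul_nonneg c0 (hρ0 x)) _),
        ← Real.mul_rpow (by norm_num) (hρ0 x)]
      exact Real.rpow_le_rpow (mul_nonneg c0 (hρ0 x))
        (mul_le_mul_of_nonneg_right c1 (hρ0 x)) hP0.le
    · by_cases hx : 0 < x j
      · rw [indicator_of_mem (show x ∈ {x : Fin (m + 1) → ℝ | 0 < x j} from hx)]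
        refine tendsto_const_nhds.congr' ?_
        filter_upwards [cut_eventually hx] with k hk
        rw [e1, hk.1, Real.sq_sqrt (by norm_num)]
      · rw [indicator_of_notMem (show x ∉ {x : Fin (m + 1) → ℝ | 0 < x j} from hx)]
        refine tendsto_const_nhds.congr fun k => ?_
        rw [e1, (cut_sq k (x j)).2.2 (not_lt.1 hx)]
        simp [Real.zero_rpow hP0.ne']
  -- the right side converges
  have limR : Tendsto (fun k => ∫ x, ∑ l, ∑ i, pd l (W k i) x ^ 2) atTop
      (𝓝 (∫ x, {x : Fin (m + 1) → ℝ | 0 < x j}.indicator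
        (fun x => 2 * ∑ l, ∑ i, pd l (w i) x ^ 2) x)) := by
    have hWcd : ∀ k i, ContDiff ℝ 1 (W k i) := fun k i =>
      ((cut_contDiff k).comp (contDiff_apply ℝ ℝ j)).mul (hw i)
    have hWcs : ∀ k i, HasCompactSupport (W k i) := fun k i => (hcw i).mul_left
    have hKm : ∀ i, Integrable ((tsupport (w i)).indicator
        (fun _ : Fin (m + 1) → ℝ => 4 * (M * L) ^ 2)) := by
      intro i
      have hK : IsCompact (tsupport (w i)) := hcw i
      rw [integrable_indicator_iff hK.measurableSet]
      exact integrableOn_const hK.measure_lt_top.ne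
    refine tendsto_integral_of_dominated_convergence (fun x => ∑ l : Fin (m + 1), ∑ i,
        ((tsupport (w i)).indicator (fun _ => 4 * (M * L) ^ 2) x + 4 * pd l (w i) x ^ 2))
      (fun k => ?_) ?_ (fun k => Eventually.of_forall fun x => ?_)
      (Eventually.of_forall fun x => ?_)
    · exact (continuous_finset_sum _ fun l _ => continuous_finset_sum _ fun i _ =>
        ((pd_basic (hWcd k i) (hWcs k i) l).1.pow 2)).aestronglyMeasurable
    · exact integrable_finset_sum _ fun l _ => integrable_finset_sum _ fun i _ =>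
        (hKm i).add ((hpi l i).const_mul 4)
    · rw [Real.norm_of_nonneg (Finset.sum_nonneg fun l _ => Finset.sum_nonneg fun i _ =>
        sq_nonneg _)]
      refine Finset.sum_le_sum fun l _ => Finset.sum_le_sum fun i _ => ?_
      rw [hWd]
      obtain ⟨c0, c1, c2⟩ := cut_sq k (x j)
      have hA : ((if l = j then deriv (cut k) (x j) else 0) * w i x) ^ 2 ≤
          2 * (tsupport (w i)).indicator (fun _ => (M * L) ^ 2) x := by
        by_cases hx : x ∈ tsupport (w i)
        · rw [indicator_of_mem hx]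
          have h1 : |deriv (cut k) (x j) * w i x| ≤ √2 * (M * L) := by
            rw [cut_deriv, abs_mul]
            have h2 : |√2 * (((k:ℝ) + 1) * deriv smoothTransition (((k:ℝ) + 1) * x j))| *
                |w i x| ≤ |√2 * (((k:ℝ) + 1) * deriv smoothTransition (((k:ℝ) + 1) * x j))| *
                (L * |x j|) := mul_le_mul_of_nonneg_left (hL i x) (abs_nonneg _)
            refine h2.trans ?_
            have h3 := hM (((k:ℝ) + 1) * x j)
            have h4 : |√2 * (((k:ℝ) + 1) * deriv smoothTransition (((k:ℝ) + 1) * x j))| *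
                (L * |x j|) = √2 * (|((k:ℝ) + 1) * x j *
                deriv smoothTransition (((k:ℝ) + 1) * x j)| * L) := by
              rw [abs_mul, abs_mul, abs_mul, abs_mul, abs_of_nonneg (Real.sqrt_nonneg 2)]
              ring
            rw [h4]
            exact mul_le_mul_of_nonneg_left (mul_le_mul_of_nonneg_right h3 hL0)
              (Real.sqrt_nonneg 2)
          split_ifs
          · have h5 := sq_le_sq' (by linarith [neg_abs_le (deriv (cut k) (x j) * w i x)])
              ((le_abs_self _).trans h1)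
            rw [mul_pow (√2), Real.sq_sqrt (by norm_num)] at h5
            exact h5
          · rw [zero_mul]
            exact le_trans (le_of_eq (by norm_num)) (mul_nonneg zero_le_two (sq_nonneg (M * L)))
        · rw [indicator_of_notMem hx, image_eq_zero_of_notMem_tsupport hx]
          simp
      have hB : (cut k (x j) * pd l (w i) x) ^ 2 ≤ 2 * pd l (w i) x ^ 2 := by
        rw [mul_pow]; exact mul_le_mul_of_nonneg_right c1 (sq_nonneg _)
      have hI : (tsupport (w i)).indicator (fun _ => 4 * (M * L) ^ 2) x =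
          4 * (tsupport (w i)).indicator (fun _ => (M * L) ^ 2) x := by
        by_cases hx : x ∈ tsupport (w i)
        · rw [indicator_of_mem hx, indicator_of_mem hx]
        · rw [indicator_of_notMem hx, indicator_of_notMem hx, mul_zero]
      rw [hI]
      nlinarith [sq_nonneg ((if l = j then deriv (cut k) (x j) else 0) * w i x -
        cut k (x j) * pd l (w i) x)]
    · by_cases hx : 0 < x j
      · rw [indicator_of_mem (show x ∈ {x : Fin (m + 1) → ℝ | 0 < x j} from hx)]
        refine tendsto_const_nhds.congr' ?_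
        filter_upwards [cut_eventually hx] with k hk
        rw [Finset.mul_sum]
        refine Finset.sum_congr rfl fun l _ => ?_
        rw [Finset.mul_sum]
        refine Finset.sum_congr rfl fun i _ => ?_
        rw [hWd, hk.1, hk.2, ite_self, zero_mul, zero_add, mul_pow, Real.sq_sqrt (by norm_num)]
      · rw [indicator_of_notMem (show x ∉ {x : Fin (m + 1) → ℝ | 0 < x j} from hx)]
        refine tendsto_const_nhds.congr fun k => ?_
        symm
        refine Finset.sum_eq_zero fun l _ => Finset.sum_eq_zero fun i _ => ?_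
        rw [hWd, (cut_sq k (x j)).2.2 (not_lt.1 hx), zero_mul, add_zero]
        rcases (not_lt.1 hx).lt_or_eq with h0 | h0
        · have : deriv (cut k) (x j) = 0 := by
            rw [cut_deriv, deriv_st_of_neg (mul_neg_of_pos_of_neg (by positivity) h0)]; simp
          rw [this, ite_self]; simp
        · rw [hz i x h0]; simp
  have hlim := le_of_tendsto_of_tendsto' (limL.const_mul C) limR key
  -- evaluate both sides
  have eL : ∫ x, {x : Fin (m + 1) → ℝ | 0 < x j}.indicator
        (fun x => (2 * ∑ i, w i x ^ 2) ^ P) x = 2 ^ (P - 1) * ∫ x, (∑ i, w i x ^ 2) ^ P := by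
    have h1 := (half_le j hρP (fun x => Real.rpow_nonneg (hρ0 x) _) (fun x => by
      have : ∑ i, w i (refl j x) ^ 2 = ∑ i, w i x ^ 2 :=
        Finset.sum_congr rfl fun i _ => by rw [hoj]; ring
      rw [this])).2 (fun x hx => by
        rw [Finset.sum_eq_zero fun i _ => by rw [hz i x hx]; simp, Real.zero_rpow hP0.ne'])
    rw [← h1]
    have h2 : ∀ x, {x : Fin (m + 1) → ℝ | 0 < x j}.indicator
        (fun x => (2 * ∑ i, w i x ^ 2) ^ P) x = 2 ^ P *
        {x : Fin (m + 1) → ℝ | 0 < x j}.indicator (fun x => (∑ i, w i x ^ 2) ^ P) x := by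
      intro x
      by_cases hx : x ∈ {x : Fin (m + 1) → ℝ | 0 < x j}
      · rw [indicator_of_mem hx, indicator_of_mem hx, Real.mul_rpow (by norm_num) (hρ0 x)]
      · rw [indicator_of_notMem hx, indicator_of_notMem hx, mul_zero]
    simp only [h2]
    rw [integral_const_mul, Real.rpow_sub (by norm_num), Real.rpow_one]
    ring
  have eR : ∫ x, {x : Fin (m + 1) → ℝ | 0 < x j}.indicator
        (fun x => 2 * ∑ l, ∑ i, pd l (w i) x ^ 2) x ≤ ∫ x, ∑ l, ∑ i, pd l (w i) x ^ 2 := by
    have h1 := (half_le j hei (fun x => Finset.sum_nonneg fun l _ => Finset.sum_nonneg fun i _ =>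
      sq_nonneg _) (fun x => Finset.sum_congr rfl fun l _ => Finset.sum_congr rfl fun i _ =>
        hpr l i x)).1
    refine le_trans (le_of_eq ?_) h1
    rw [← integral_const_mul]
    refine integral_congr_ae (Eventually.of_forall fun x => ?_)
    dsimp only
    by_cases hx : x ∈ {x : Fin (m + 1) → ℝ | 0 < x j}
    · rw [indicator_of_mem hx, indicator_of_mem hx]
    · rw [indicator_of_notMem hx, indicator_of_notMem hx, mul_zero]
  rw [eL] at hlim
  calc 2 ^ (P - 1) * C * ∫ x, (∑ i, w i x ^ 2) ^ P
      = C * (2 ^ (P - 1) * ∫ x, (∑ i, w i x ^ 2) ^ P) := by ring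
    _ ≤ _ := hlim
    _ ≤ _ := eR

/-- the inequality for smooth families which are odd in the coordinates in `S` -/
theorem oddIneq (m : ℕ) (S : Finset (Fin (m + 1))) :
    OddIneq m ((2 ^ (pp (3 / 2 + (m:ℝ) / 2) - 1)) ^ S.card * bco (m / 2) (3 / 2) (π ^ 2 / 4)) S := by
  induction S using Finset.induction_on with
  | empty => simpa using base m
  | insert j S hj ih =>
    have hb : 0 < bco ((m:ℝ) / 2) (3 / 2) (π ^ 2 / 4) := 
      bco_pos (by have := Nat.cast_nonneg (α := ℝ) m; linarith) (by norm_num) (by positivity)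
    have := step m (by positivity) ih hj
    rw [Finset.card_insert_of_notMem hj, pow_succ]
    have e : (2 ^ (pp (3 / 2 + (m:ℝ) / 2) - 1)) ^ S.card * 2 ^ (pp (3 / 2 + (m:ℝ) / 2) - 1) *
        bco ((m:ℝ) / 2) (3 / 2) (π ^ 2 / 4) = 2 ^ (pp (3 / 2 + (m:ℝ) / 2) - 1) *
        ((2 ^ (pp (3 / 2 + (m:ℝ) / 2) - 1)) ^ S.card * bco ((m:ℝ) / 2) (3 / 2) (π ^ 2 / 4)) := by
      ring
    rw [e]
    exact this

end Pool.Agent.Q232.LT
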